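import Pool.Agent.T9h96.LM.General
import Pool.Agent.N345.DW.Final

set_option autoImplicit false

/-!
# The Singer parameters
-/

namespace Pool.Agent.T9h96.LM

open Finset

theorem isDS_of {G : Type*} [CommGroup G] [Fintype G] [DecidableEq G] {D : Finset G} {n m : ℕ}
    (hn : 2 ≤ n) (hm : 4 ≤ m)
    (hv : Fintype.card G * (n - 1) = n ^ m - 1) (hk : D.card * (n - 1) = n ^ (m - 1) - 1)
    (hl : ∀ g : G, g ≠ 1 →
      ((D ×ˢ D).filter (fun p : G × G => p.1 * p.2⁻¹ = g)).card * (n - 1) = n ^ (m - 2) - 1) :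
    ∃ lam, IsDS D n lam ∧ (m = 4 → lam = n + 1) := by
  have hn1 : 0 < n - 1 := by omega
  have hcardG : 1 < Fintype.card G := by
    by_contra hcon
    have h1 : Fintype.card G * (n - 1) ≤ 1 * (n - 1) := Nat.mul_le_mul_right _ (by omega)
    have h2 : n ^ 2 ≤ n ^ m := Nat.pow_le_pow_right (by omega) (by omega)
    have h3 : n * 2 ≤ n ^ 2 := by rw [sq]; exact Nat.mul_le_mul_left _ hn
    omega
  obtain ⟨g, hg⟩ : ∃ g : G, g ≠ 1 := Fintype.exists_ne_of_one_lt_card hcardG 1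
  obtain ⟨r, hr, hr4, e1, e2, e3⟩ := Pool.Agent.N345.DW.params hn hm hv hk (hl g hg)
  refine ⟨r * n + 1, ⟨hn, ?_, ?_, ?_, ?_⟩, ?_⟩
  · nlinarith
  · rw [e2]; ring
  · rw [e3]; ring
  · intro x hx
    have h1 := hl x hx
    have h2 := hl g hg
    rw [e1] at h2
    rw [← h2] at h1
    have h3 := Nat.eq_of_mul_eq_mul_right hn1 h1
    rw [← h3]
    symm
    apply card_bij (fun p _ => p.2)
    · rintro ⟨a, b⟩ hp
      simp only [mem_filter, mem_product] at hp ⊢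
      refine ⟨hp.1.2, ?_⟩
      rw [← hp.2, inv_mul_cancel_right]
      exact hp.1.1
    · rintro ⟨a, b⟩ hp ⟨a', b'⟩ hp' hbb
      simp only [mem_filter, mem_product] at hp hp' hbb
      subst hbb
      have : a = a' := by
        have h5 := hp.2.trans hp'.2.symm
        exact mul_right_cancel h5
      rw [this]
    · intro b hb
      rw [mem_filter] at hb
      refine ⟨(x * b, b), ?_, rfl⟩
      simp [hb.1, hb.2]
  · intro h4
    rw [hr4 h4]; ring

theorem not_dvd_of_odd {v n m : ℕ} (hn : 2 ≤ n) (hm : 4 ≤ m) (hv : v * (n - 1) = n ^ m - 1)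
    (ho : Odd m) : ¬ (n + 1) ∣ v := by
  intro hd
  have h1 : n + 1 ∣ n ^ m - 1 := by rw [← hv]; exact hd.mul_right _
  have h2 : n + 1 ∣ n ^ m + 1 ^ m := Odd.nat_add_dvd_pow_add_pow n 1 ho
  rw [one_pow] at h2
  have hpos : 1 ≤ n ^ m := Nat.one_le_pow _ _ (by omega)
  have h3 : n + 1 ∣ (n ^ m + 1) - (n ^ m - 1) := Nat.dvd_sub h2 h1
  have h4 : (n ^ m + 1) - (n ^ m - 1) = 2 := by omega
  rw [h4] at h3
  have := Nat.le_of_dvd (by norm_num) h3
  omega

theorem not_sq_dvd {v n m : ℕ} (hn : 2 ≤ n) (hm : 4 ≤ m) (hv : v * (n - 1) = n ^ m - 1)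
    (hnd : ¬ 2 * (n + 1) ∣ m) : ¬ (n + 1) * (n + 1) ∣ v := by
  intro hd
  rcases Nat.even_or_odd m with he | ho
  · obtain ⟨j, hj⟩ := he
    have hj2 : m = 2 * j := by omega
    have hW : (v : ℤ) = (n + 1) * ∑ i ∈ range j, ((n : ℤ) ^ 2) ^ i := by
      have h1 : (v : ℤ) * ((n : ℤ) - 1) = (n : ℤ) ^ m - 1 := by
        have hp : 1 ≤ n ^ m := Nat.one_le_pow _ _ (by omega)
        have := congrArg (Nat.cast : ℕ → ℤ) hv
        push_cast [Nat.cast_sub hp, Nat.cast_sub (show 1 ≤ n by omega)] at this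
        exact this
      have h2 := geom_sum_mul ((n : ℤ) ^ 2) j
      rw [← pow_mul, ← hj2, ← h1] at h2
      have h3 : ((n : ℤ) - 1) ≠ 0 := by omega
      apply mul_right_cancel₀ h3
      rw [← h2]; ring
    have h3 : ((n : ℤ) + 1) ∣ ∑ i ∈ range j, ((n : ℤ) ^ 2) ^ i := by
      have h4 : (((n + 1) * (n + 1) : ℕ) : ℤ) ∣ (v : ℤ) := Int.natCast_dvd_natCast.2 hd
      rw [hW] at h4
      push_cast at h4
      exact (mul_dvd_mul_iff_left (show ((n : ℤ) + 1) ≠ 0 by omega)).1 h4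
    have h5 : ((n : ℤ) + 1) ∣ (∑ i ∈ range j, ((n : ℤ) ^ 2) ^ i) - j := by
      have : (∑ i ∈ range j, ((n : ℤ) ^ 2) ^ i) - j = ∑ i ∈ range j, (((n : ℤ) ^ 2) ^ i - 1) := by
        rw [sum_sub_distrib]; simp
      rw [this]
      apply dvd_sum
      intro i _
      have h6 : ((n : ℤ) ^ 2 - 1) ∣ ((n : ℤ) ^ 2) ^ i - 1 := by
        simpa using sub_one_dvd_pow_sub_one ((n : ℤ) ^ 2) i
      refine dvd_trans ⟨(n : ℤ) - 1, by ring⟩ h6
    have h6 : ((n : ℤ) + 1) ∣ (j : ℤ) := by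
      have := dvd_sub h3 h5
      simpa using this
    apply hnd
    rw [hj2]
    have h7 : (n + 1) ∣ j := by exact_mod_cast h6
    exact Nat.mul_dvd_mul_left 2 h7
  · exact not_dvd_of_odd hn hm hv ho ((Dvd.intro _ rfl).trans hd)

end Pool.Agent.T9h96.LM
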