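import Mathlib

set_option autoImplicit false

/-!
# Long lines in symmetric designs with an abelian regular group

`D` is a difference set in a finite abelian group `G` with `|D| = n λ + 1`, `|G| = n |D| + 1`
(for instance with the parameters of the hyperplanes of `PG(m - 1, n)`). The blocks are the
translates `{x | g x ∈ D}`. A set `L` of `n + 1` points is long if each block meets it in `1` or
`n + 1` points.
-/

namespace Pool.Agent.T9h96.LM

open Finset

variable {G : Type*} [CommGroup G] [Fintype G] [DecidableEq G]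

/-- The number of `l ∈ L` with `g * l ∈ D`. -/
def A (D : Finset G) (g : G) (L : Finset G) : ℕ := (L.filter fun l => g * l ∈ D).card

/-- Difference sets with `|D| = n λ + 1` and `|G| = n |D| + 1`. -/
structure IsDS (D : Finset G) (n lam : ℕ) : Prop where
  hn : 2 ≤ n
  hlam : 2 ≤ lam
  hk : D.card = n * lam + 1
  hv : Fintype.card G = n * (n * lam + 1) + 1
  hl : ∀ g : G, g ≠ 1 → (D.filter fun x => g * x ∈ D).card = lam

/-- Long sets: `n + 1` points, each block meets the set in `1` or `n + 1` points. -/
def Long (D : Finset G) (n : ℕ) (L : Finset G) : Prop :=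
  L.card = n + 1 ∧ ∀ g, A D g L = 1 ∨ A D g L = n + 1

/-- The blocks which contain `L`. -/
def S (D : Finset G) (L : Finset G) : Finset G := univ.filter fun y => ∀ l ∈ L, y * l ∈ D

/-- Translates. -/
def tr (a : G) (L : Finset G) : Finset G := L.image fun x => a * x

/-- Images under power maps. -/
def pw (t : ℕ) (L : Finset G) : Finset G := L.image fun x => x ^ t

theorem mem_S {D L : Finset G} {y : G} : y ∈ S D L ↔ ∀ l ∈ L, y * l ∈ D := by simp [S]

theorem mem_tr {a x : G} {L : Finset G} : x ∈ tr a L ↔ a⁻¹ * x ∈ L := by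
  unfold tr
  rw [mem_image]
  constructor
  · rintro ⟨y, hy, rfl⟩
    simpa using hy
  · intro h
    exact ⟨_, h, by group⟩

theorem mul_mem_tr {a x : G} {L : Finset G} : a * x ∈ tr a L ↔ x ∈ L := by
  rw [mem_tr]; simp

theorem card_tr (a : G) (L : Finset G) : (tr a L).card = L.card :=
  card_image_of_injective _ (mul_right_injective a)

theorem tr_tr (a b : G) (L : Finset G) : tr a (tr b L) = tr (a * b) L := by
  ext x; simp only [mem_tr, mul_inv_rev, mul_assoc, mul_comm, mul_left_comm]

theorem tr_one (L : Finset G) : tr 1 L = L := by ext x; simp [mem_tr]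

theorem A_tr (D : Finset G) (g a : G) (L : Finset G) : A D g (tr a L) = A D (g * a) L := by
  unfold A
  apply card_nbij' (fun x => a⁻¹ * x) (fun x => a * x)
  · intro x hx
    simp only [coe_filter, Set.mem_setOf_eq, mem_tr] at hx ⊢
    exact ⟨hx.1, by simpa [mul_assoc] using hx.2⟩
  · intro x hx
    simp only [coe_filter, Set.mem_setOf_eq, mul_mem_tr] at hx ⊢
    exact ⟨hx.1, by simpa [mul_assoc] using hx.2⟩
  · intro x _; simp
  · intro x _; simp

theorem mem_S_tr {D : Finset G} {y a : G} {L : Finset G} : y ∈ S D (tr a L) ↔ y * a ∈ S D L := by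
  simp only [mem_S]
  constructor
  · intro h l hl
    have := h (a * l) (mul_mem_tr.2 hl)
    simpa [mul_assoc] using this
  · intro h l hl
    rw [mem_tr] at hl
    have := h _ hl
    simpa [mul_assoc] using this

theorem A_eq_card_iff {D : Finset G} {g : G} {L : Finset G} :
    A D g L = L.card ↔ g ∈ S D L := by
  unfold A
  rw [card_filter_eq_iff, mem_S]

theorem A_le (D : Finset G) (g : G) (L : Finset G) : A D g L ≤ L.card := card_filter_le _ _

theorem one_le_A {D : Finset G} {g : G} {L : Finset G} (h : 1 ≤ A D g L) : ∃ l ∈ L, g * l ∈ D := by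
  unfold A at h
  obtain ⟨l, hl⟩ := card_pos.1 h
  rw [mem_filter] at hl
  exact ⟨l, hl.1, hl.2⟩

theorem two_le_A {D : Finset G} {g x y : G} {L : Finset G} (hx : x ∈ L) (hy : y ∈ L) (hxy : x ≠ y)
    (h1 : g * x ∈ D) (h2 : g * y ∈ D) : 2 ≤ A D g L := by
  unfold A
  have : 1 < (L.filter fun l => g * l ∈ D).card :=
    one_lt_card.2 ⟨x, by simp [hx, h1], y, by simp [hy, h2], hxy⟩
  omega

/-- blocks through a point -/
theorem count_one (D : Finset G) (x : G) : (univ.filter fun a : G => a * x ∈ D).card = D.card := by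
  apply card_nbij' (fun a => a * x) (fun d => d * x⁻¹)
  · intro a ha; simpa using ha
  · intro a ha; simpa using ha
  · intro a _; simp
  · intro a _; simp

variable {D : Finset G} {n lam : ℕ}

/-- blocks through two points -/
theorem count_two (h : IsDS D n lam) {x y : G} (hxy : x ≠ y) :
    (univ.filter fun a : G => a * x ∈ D ∧ a * y ∈ D).card = lam := by
  have hg : y * x⁻¹ ≠ 1 := by
    intro e
    apply hxy
    have := mul_inv_eq_one.1 e
    exact this.symm
  rw [← h.hl _ hg]
  apply card_nbij' (fun a => a * x) (fun d => d * x⁻¹)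
  · intro a ha
    simp only [coe_filter, mem_univ, true_and, Set.mem_setOf_eq] at ha ⊢
    refine ⟨ha.1, ?_⟩
    have e : y * x⁻¹ * (a * x) = a * y := by
      rw [mul_comm a x, ← mul_assoc, inv_mul_cancel_right, mul_comm]
    rw [e]; exact ha.2
  · intro d hd
    simp only [coe_filter, mem_univ, true_and, Set.mem_setOf_eq] at hd ⊢
    refine ⟨by simpa using hd.1, ?_⟩
    have e : d * x⁻¹ * y = y * x⁻¹ * d := by
      rw [mul_assoc, mul_comm d, mul_comm y x⁻¹]
    rw [e]; exact hd.2
  · intro a _; simp
  · intro a _; simp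

/-- points in two blocks -/
theorem count_two' (h : IsDS D n lam) {a b : G} (hab : a ≠ b) :
    (univ.filter fun x : G => a * x ∈ D ∧ b * x ∈ D).card = lam := by
  rw [← count_two h hab]
  congr 1
  ext x
  simp only [mem_filter, mem_univ, true_and, mul_comm]

theorem sum_A (D L : Finset G) : ∑ g : G, A D g L = L.card * D.card := by
  have e : ∀ g : G, A D g L = ∑ l ∈ L, if g * l ∈ D then 1 else 0 := by
    intro g; unfold A; rw [card_filter]
  simp_rw [e]
  rw [sum_comm]
  have e2 : ∀ l ∈ L, (∑ g : G, if g * l ∈ D then 1 else 0) = D.card := by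
    intro l _
    rw [← card_filter]; exact count_one D l
  rw [sum_congr rfl e2, sum_const, smul_eq_mul]

theorem sum_A_sq (h : IsDS D n lam) (L : Finset G) :
    ∑ g : G, (A D g L) ^ 2 = L.card * D.card + L.card * (L.card - 1) * lam := by
  have e : ∀ g : G, (A D g L) ^ 2 = ∑ l ∈ L, ∑ l' ∈ L, if g * l ∈ D ∧ g * l' ∈ D then 1 else 0 := by
    intro g
    have e1 : A D g L = ∑ l ∈ L, if g * l ∈ D then 1 else 0 := by unfold A; rw [card_filter]
    rw [sq, e1, sum_mul_sum]
    apply sum_congr rfl; intro l _
    apply sum_congr rfl; intro l' _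
    by_cases h1 : g * l ∈ D <;> by_cases h2 : g * l' ∈ D <;> simp [h1, h2]
  simp_rw [e]
  rw [sum_comm]
  have e2 : ∀ l ∈ L, (∑ g : G, ∑ l' ∈ L, if g * l ∈ D ∧ g * l' ∈ D then 1 else 0) =
      D.card + (L.card - 1) * lam := by
    intro l hl
    rw [sum_comm, ← add_sum_erase L _ hl]
    congr 1
    · have := count_one D l
      rw [card_filter] at this
      rw [← this]
      apply sum_congr rfl; intro g _; simp
    · have : ∀ l' ∈ L.erase l, (∑ g : G, if g * l ∈ D ∧ g * l' ∈ D then 1 else 0) = lam := by
        intro l' hl'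
        rw [← card_filter]
        exact count_two h (ne_of_mem_erase hl').symm
      rw [sum_congr rfl this, sum_const, card_erase_of_mem hl, smul_eq_mul]
  rw [sum_congr rfl e2, sum_const, smul_eq_mul]
  ring

/-- Bose and Burton: `n + 1` points which meet every block form a long set. -/
theorem long_of_blocking (h : IsDS D n lam) {L : Finset G} (hL : L.card = n + 1)
    (hb : ∀ g, 1 ≤ A D g L) : Long D n L := by
  refine ⟨hL, fun g => ?_⟩
  have h1 := sum_A D L
  have h2 := sum_A_sq h L
  rw [hL, h.hk] at h1 h2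
  have key : ∑ g : G, (((A D g L : ℤ) - 1) * ((n : ℤ) + 1 - A D g L)) = 0 := by
    have e : ∀ g : G, (((A D g L : ℤ) - 1) * ((n : ℤ) + 1 - A D g L)) =
        ((n : ℤ) + 2) * (A D g L : ℤ) - ((A D g L ^ 2 : ℕ) : ℤ) - ((n : ℤ) + 1) := by
      intro g; push_cast; ring
    simp_rw [e]
    rw [sum_sub_distrib, sum_sub_distrib, ← mul_sum, ← Nat.cast_sum, ← Nat.cast_sum, h1, h2,
      sum_const, card_univ, h.hv]
    simp only [Nat.add_sub_cancel, nsmul_eq_mul]
    push_cast
    ring
  have hnn : ∀ g ∈ (univ : Finset G), 0 ≤ (((A D g L : ℤ) - 1) * ((n : ℤ) + 1 - A D g L)) := by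
    intro g _
    apply mul_nonneg
    · have := hb g; omega
    · have := A_le D g L; rw [hL] at this; omega
  have := (sum_eq_zero_iff_of_nonneg hnn).1 key g (mem_univ _)
  rcases mul_eq_zero.1 this with h3 | h3
  · left; omega
  · right; omega

theorem Long.mem_S_iff {L : Finset G} (hL : Long D n L) {g : G} :
    g ∈ S D L ↔ A D g L = n + 1 := by
  rw [← A_eq_card_iff, hL.1]

theorem Long.mem_S_of_two {L : Finset G} (hL : Long D n L) {g x y : G}
    (hx : x ∈ L) (hy : y ∈ L) (hxy : x ≠ y) (h1 : g * x ∈ D) (h2 : g * y ∈ D) : g ∈ S D L := by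
  rw [hL.mem_S_iff]
  have := two_le_A hx hy hxy h1 h2
  rcases hL.2 g with h3 | h3 <;> omega

theorem Long.S_eq {L : Finset G} (hL : Long D n L) {x y : G}
    (hx : x ∈ L) (hy : y ∈ L) (hxy : x ≠ y) :
    S D L = univ.filter fun a : G => a * x ∈ D ∧ a * y ∈ D := by
  ext a
  rw [mem_filter]
  constructor
  · intro h; rw [mem_S] at h; exact ⟨mem_univ _, h x hx, h y hy⟩
  · intro h; exact hL.mem_S_of_two hx hy hxy h.2.1 h.2.2

theorem Long.exists_two (h : IsDS D n lam) {L : Finset G} (hL : Long D n L) :
    ∃ x ∈ L, ∃ y ∈ L, x ≠ y := by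
  apply one_lt_card.1
  rw [hL.1]; have := h.hn; omega

theorem Long.card_S (h : IsDS D n lam) {L : Finset G} (hL : Long D n L) : (S D L).card = lam := by
  obtain ⟨x, hx, y, hy, hxy⟩ := hL.exists_two h
  rw [hL.S_eq hx hy hxy, count_two h hxy]

theorem Long.mem_of (h : IsDS D n lam) {L : Finset G} (hL : Long D n L) {z : G}
    (hz : ∀ a ∈ S D L, a * z ∈ D) : z ∈ L := by
  by_contra hzL
  have key : (univ.filter fun a : G => a * z ∈ D) ⊆ S D L := by
    intro a ha
    simp only [mem_filter, mem_univ, true_and] at ha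
    have h1 : 1 ≤ A D a L := by
      have := h.hn
      rcases hL.2 a with h3 | h3 <;> omega
    obtain ⟨l, hl, hal⟩ := one_le_A h1
    have hlz : z ≠ l := by rintro rfl; exact hzL hl
    have hsub : S D L ⊆ univ.filter fun a : G => a * z ∈ D ∧ a * l ∈ D := by
      intro b hb
      simp only [mem_filter, mem_univ, true_and]
      exact ⟨hz b hb, mem_S.1 hb l hl⟩
    have heq := eq_of_subset_of_card_le hsub (by rw [count_two h hlz, hL.card_S h])
    rw [heq]
    simp [ha, hal]
  have := card_le_card key
  rw [count_one, hL.card_S h, h.hk] at this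
  have := h.hn
  have := h.hlam
  nlinarith

theorem Long.eq_of_two (h : IsDS D n lam) {L L' : Finset G} (hL : Long D n L) (hL' : Long D n L')
    {x y : G} (hx : x ∈ L) (hy : y ∈ L) (hx' : x ∈ L') (hy' : y ∈ L') (hxy : x ≠ y) : L = L' := by
  have hS : S D L = S D L' := by rw [hL.S_eq hx hy hxy, hL'.S_eq hx' hy' hxy]
  have hsub : L' ⊆ L := by
    intro z hz
    apply hL.mem_of h
    intro a ha
    rw [hS] at ha
    exact mem_S.1 ha z hz
  exact (eq_of_subset_of_card_le hsub (by rw [hL.1, hL'.1])).symm

theorem Long.tr {L : Finset G} (hL : Long D n L) (a : G) : Long D n (tr a L) := by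
  refine ⟨by rw [card_tr, hL.1], fun g => ?_⟩
  rw [A_tr]; exact hL.2 _

/-- The line joining `1` and `g` (as in the results on this problem). -/
theorem long_line (h : IsDS D n lam) {l : Finset G} {g : G} (hg : g ≠ 1)
    (hl : l = univ.filter fun z => ∀ h ∈ D, g * h ∈ D → z * h ∈ D) (hc : l.card = n + 1) :
    Long D n l := by
  have h1 : (1 : G) ∈ l := by rw [hl]; simp only [mem_filter, mem_univ, true_and, one_mul]; tauto
  have hgl : g ∈ l := by rw [hl]; simp only [mem_filter, mem_univ, true_and]; tauto
  -- the blocks which contain `l` are those which contain `1` and `g`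
  have hS : S D l = univ.filter fun a : G => a * 1 ∈ D ∧ a * g ∈ D := by
    ext a
    rw [mem_filter, mem_S]
    constructor
    · intro h; exact ⟨mem_univ _, h 1 h1, h g hgl⟩
    · intro h z hz
      rw [hl] at hz
      simp only [mem_filter, mem_univ, true_and] at hz
      rw [mul_comm]
      exact hz a (by simpa using h.2.1) (by rw [mul_comm]; exact h.2.2)
  have hcS : (S D l).card = lam := by rw [hS]; exact count_two h (Ne.symm hg)
  -- two points of `l` in a block
  have htwo : ∀ a, 2 ≤ A D a l → a ∈ S D l := by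
    intro a ha
    unfold A at ha
    obtain ⟨x, hx, y, hy, hxy⟩ := one_lt_card.1 ha
    rw [mem_filter] at hx hy
    have hsub : S D l ⊆ univ.filter fun a : G => a * x ∈ D ∧ a * y ∈ D := by
      intro b hb
      simp only [mem_filter, mem_univ, true_and]
      exact ⟨mem_S.1 hb x hx.1, mem_S.1 hb y hy.1⟩
    have heq := eq_of_subset_of_card_le hsub (by rw [count_two h hxy, hcS])
    rw [heq]
    simp [hx.2, hy.2]
  apply long_of_blocking h hc
  -- the number of blocks which meet `l`
  by_contra hcon
  push Not at hcon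
  obtain ⟨g0, hg0⟩ := hcon
  have hsum := sum_A D l
  rw [hc, h.hk] at hsum
  have hle : ∑ g : G, A D g l ≤ ∑ g : G, ((if g = g0 then 0 else 1) + (if g ∈ S D l then n else 0)) := by
    apply sum_le_sum
    intro a _
    by_cases hS' : a ∈ S D l
    · have h3 : A D a l = n + 1 := by rw [← hc]; exact A_eq_card_iff.2 hS'
      have h4 : a ≠ g0 := by rintro rfl; omega
      rw [if_neg h4, if_pos hS', h3]; omega
    · have h5 : A D a l ≤ 1 := by
        by_contra h6
        exact hS' (htwo a (by omega))
      by_cases h7 : a = g0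
      · subst h7; omega
      · rw [if_neg h7]; omega
  rw [sum_add_distrib, hsum] at hle
  have e1 : (∑ g : G, if g = g0 then 0 else 1) = Fintype.card G - 1 := by
    have : ∀ g : G, (if g = g0 then 0 else 1) = if g ≠ g0 then 1 else 0 := by
      intro g; by_cases h : g = g0 <;> simp [h]
    simp_rw [this]
    rw [← card_filter, filter_ne', card_erase_of_mem (mem_univ _), card_univ]
  have e2 : (∑ g : G, if g ∈ S D l then n else 0) = lam * n := by
    rw [← sum_filter, sum_const, filter_mem_eq_inter, univ_inter, hcS, smul_eq_mul]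
  rw [e1, e2, h.hv] at hle
  have := h.hn
  have := h.hlam
  simp only [Nat.add_sub_cancel] at hle
  nlinarith

theorem Long.line_eq (h : IsDS D n lam) {L : Finset G} (hL : Long D n L) {g : G} (hg : g ≠ 1)
    (h1 : (1 : G) ∈ L) (hgL : g ∈ L) :
    (univ.filter fun z => ∀ h ∈ D, g * h ∈ D → z * h ∈ D) = L := by
  ext z
  rw [mem_filter]
  constructor
  · intro hz
    apply hL.mem_of h
    intro a ha
    rw [mul_comm]
    have ha' := mem_S.1 ha
    exact hz.2 a (by simpa using ha' 1 h1) (by rw [mul_comm]; exact ha' g hgL)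
  · intro hz
    refine ⟨mem_univ _, fun a ha hga => ?_⟩
    have : a ∈ S D L := hL.mem_S_of_two h1 hgL (Ne.symm hg) (by simpa using ha)
      (by rw [mul_comm]; exact hga)
    rw [mul_comm]
    exact mem_S.1 this z hz

end Pool.Agent.T9h96.LM
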