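import Pool.Agent.T9h96.LM.Four

set_option autoImplicit false

/-!
# Normalised long lines and power maps, `n` even

In the base situation (`Base`) all products `t` of primes dividing `n` map normalised long lines
with trivial stabiliser to such lines, and `x x ^ w = x ^ f` with `x` on such a line and products
`w`, `f` of primes dividing `n` is possible only if `x ^ w = x`.
-/

namespace Pool.Agent.T9h96.LM

open Finset MonoidAlgebra

variable {G : Type*} [CommGroup G] [Fintype G] [DecidableEq G]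
variable {D : Finset G} {n : ℕ}

theorem A_pw {p : ℕ} (hp : (Fintype.card G).Coprime p) (X Y : Finset G) (h : G) :
    A (pw p X) (h ^ p) (pw p Y) = A X h Y := by
  unfold A
  symm
  apply card_bij (fun y _ => y ^ p)
  · intro y hy
    rw [mem_filter] at hy ⊢
    rw [pow_mem_pw hp, ← mul_pow, pow_mem_pw hp]
    exact hy
  · intro y _ y' _ hyy
    exact pow_injective hp hyy
  · intro y hy
    rw [mem_filter] at hy
    obtain ⟨h1, h2⟩ := hy
    unfold pw at h1
    rw [mem_image] at h1
    obtain ⟨x, hx, rfl⟩ := h1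
    refine ⟨x, ?_, rfl⟩
    rw [← mul_pow, pow_mem_pw hp] at h2
    rw [mem_filter]; exact ⟨hx, h2⟩

/-- Comparison of `D` and its image under a power map on translates of an image of a line. -/
theorem compare {p : ℕ} (hp : (Fintype.card G).Coprime p) {L : Finset G}
    (hL : Norm D n L) {z : G} (hz : Norm D n (tr z (pw p L))) (g : G) :
    A (pw p D) g (pw p L) = A D (z ^ 2 * g) (pw p L) := by
  obtain ⟨h, rfl⟩ : ∃ h, h ^ p = g := by
    have : (Nat.card G).Coprime p := by rwa [Nat.card_eq_fintype_card]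
    exact ⟨(powCoprime this).symm g, (powCoprime this).apply_symm_apply g⟩
  rw [A_pw hp, hL.A_eq]
  have h1 := hz.A_eq (z * h ^ p)
  rw [A_tr] at h1
  have e1 : z * h ^ p * z = z ^ 2 * h ^ p := by rw [mul_right_comm, sq]
  have e2 : z * h ^ p ∈ tr z (pw p L) ↔ h ∈ L := by rw [mul_mem_tr, pow_mem_pw hp]
  rw [e1] at h1
  rw [h1]
  by_cases hh : h ∈ L
  · rw [if_pos hh, if_pos (e2.2 hh)]
  · rw [if_neg hh, if_neg (fun c => hh (e2.1 c))]

theorem Norm.prime (h : IsDS D n (n + 1)) (he : Even n) (hB : Base D n) {L : Finset G}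
    (hL : Norm D n L) (hf : Free L) {p : ℕ} (hp : p.Prime) (hpn : p ∣ n) :
    Norm D n (LM.pw p L) := by
  have hodd : (Fintype.card G).Coprime 2 := h.coprime he.two_dvd
  have hcp := h.coprime hpn
  have h2n := h.hn
  obtain ⟨z, hz⟩ := (hL.1.pw_prime h hp hpn).exists_norm h hodd
  set P := LM.pw p L with hP
  have hfP : Free P := hf.pw hcp
  -- the square of the line
  have hL2 : Norm D n (LM.pw 2 L) := hL.square h he hB hf
  have hz2 : Norm D n (LM.tr (z ^ 2) (LM.pw p (LM.pw 2 L))) := by
    have h1 := hz.square h he hB (hfP.tr z)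
    rw [pw_tr, hP, pw_pw, mul_comm, ← pw_pw] at h1
    exact h1
  set Q := LM.pw p (LM.pw 2 L) with hQ
  have hQ2 : Q = LM.pw 2 P := by rw [hQ, hP, pw_pw, pw_pw, mul_comm]
  have hfQ : Free Q := by rw [hQ2]; exact hfP.pw hodd
  have E1 : ∀ g, A (LM.pw p D) g P = A D (z ^ 2 * g) P := compare hcp hL hz
  have E2 : ∀ g, A (LM.pw p D) g Q = A D ((z ^ 2) ^ 2 * g) Q := compare hcp hL2 hz2
  -- a prime which is congruent to `2` modulo the order of the group
  obtain ⟨q, hq, hqn, hq2⟩ := exists_prime (G := G) 2 n hodd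
  have : Fact q.Prime := ⟨hq⟩
  have hinj : Function.Injective (fun x : G => x ^ q) := by
    intro x y hxy
    simp only [hq2] at hxy
    exact pow_injective hodd hxy
  have hPq : LM.pw q P = Q := by
    rw [hQ2]; unfold LM.pw
    apply image_congr
    intro x _
    exact hq2 x
  set R := ZMod q
  have W1 : (dl R (LM.pw p D) - single (z ^ 2)⁻¹ 1 * dl R D) * dm R P = 0 := by
    ext g
    rw [sub_mul, mul_assoc, coeff_sub, Finsupp.sub_apply, coef, coeff_single_mul_apply, coef,
      inv_inv, E1 g]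
    simp
  have W1' : (dl R (LM.pw p D) - single (z ^ 2)⁻¹ 1 * dl R D) * dm R Q = 0 := by
    rw [← hPq, ← dm_pow q R P hinj.injOn]
    obtain ⟨r, hr⟩ : ∃ r, q = r + 1 := ⟨q - 1, by have := hq.pos; omega⟩
    have e : dm R P ^ q = dm R P * dm R P ^ r := by
      have e1 : dm R P ^ q = dm R P ^ (r + 1) := congrArg (fun j => dm R P ^ j) hr
      rw [e1, pow_succ, mul_comm]
    rw [e, ← mul_assoc, W1, zero_mul]
  have key : ∀ g, A D (z ^ 2 * g) Q = A D ((z ^ 2) ^ 2 * g) Q := by
    intro g
    have h1 := congrArg (fun x : MonoidAlgebra R G => x.coeff g) W1'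
    simp only [sub_mul, mul_assoc, coeff_sub, Finsupp.sub_apply, coef, coeff_single_mul_apply,
      inv_inv, one_mul, coeff_zero, Finsupp.zero_apply] at h1
    rw [E2 g, sub_eq_zero, ZMod.natCast_eq_natCast_iff] at h1
    have hLQ : Long D n Q := by
      have := hz2.1.tr (z ^ 2)⁻¹
      rwa [tr_tr, inv_mul_cancel, tr_one] at this
    have h3 := Nat.ModEq.eq_of_lt_of_lt (a := A D ((z ^ 2) ^ 2 * g) Q - 1)
      (b := A D (z ^ 2 * g) Q - 1) (m := q) (by
        have ha : 1 ≤ A D ((z ^ 2) ^ 2 * g) Q := by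
          rcases hLQ.2 ((z ^ 2) ^ 2 * g) with h5 | h5 <;> omega
        have hb : 1 ≤ A D (z ^ 2 * g) Q := by
          rcases hLQ.2 (z ^ 2 * g) with h5 | h5 <;> omega
        apply Nat.ModEq.add_right_cancel' 1
        rw [Nat.sub_add_cancel ha, Nat.sub_add_cancel hb]
        exact h1)
      (by rcases hLQ.2 ((z ^ 2) ^ 2 * g) with h5 | h5 <;> omega)
      (by rcases hLQ.2 (z ^ 2 * g) with h5 | h5 <;> omega)
    rcases hLQ.2 ((z ^ 2) ^ 2 * g) with h5 | h5 <;>
      rcases hLQ.2 (z ^ 2 * g) with h6 | h6 <;> omega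
  -- the stabiliser of `Q`
  have e : ∀ y, A D y Q = n + 1 ↔ (z ^ 2)⁻¹ * (y * (z ^ 2)⁻¹) ∈ Q := by
    intro y
    rw [← mem_tr, ← hz2.2, hz2.1.mem_S_iff, A_tr, inv_mul_cancel_right]
  have hstab : LM.tr (z ^ 2) Q = Q := by
    ext x
    have h1 := key x
    have h2 : (z ^ 2)⁻¹ * ((z ^ 2 * x) * (z ^ 2)⁻¹) = (z ^ 2)⁻¹ * x := by
      rw [mul_comm (z ^ 2) x, mul_inv_cancel_right]
    have h3 : (z ^ 2)⁻¹ * (((z ^ 2) ^ 2 * x) * (z ^ 2)⁻¹) = x := by
      rw [sq (z ^ 2), mul_assoc (z ^ 2) (z ^ 2) x, mul_assoc (z ^ 2), inv_mul_cancel_left,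
        mul_comm (z ^ 2) x, mul_inv_cancel_right]
    rw [mem_tr, ← h2, ← e, h1, e, h3]
  have hz1 : z ^ 2 = 1 := hfQ _ hstab
  have hz1' : z = 1 := by
    apply pow_injective hodd
    simp only
    rw [hz1, one_pow]
  rw [hz1', tr_one] at hz
  exact hz

theorem Norm.good (h : IsDS D n (n + 1)) (he : Even n) (hB : Base D n) {L : Finset G}
    (hL : Norm D n L) (hf : Free L) {t : ℕ} (ht : Good n t) : Norm D n (LM.pw t L) := by
  revert t
  apply Good.induction
  · rw [pw_one]; exact hL
  · intro p t hp hpn htg ih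
    rw [← pw_pw]
    exact ih.prime h he hB (hf.pw (htg.coprime h)) hp hpn

/-- No product of primes dividing `n` inverts an element `≠ 1` of a normalised long line with
trivial stabiliser. -/
theorem Norm.no_inverse (h : IsDS D n (n + 1)) (he : Even n) (hB : Base D n) {L : Finset G}
    (hL : Norm D n L) (hf : Free L) {x : G} (hx : x ∈ L) (hx1 : x ≠ 1) {w : ℕ} (hw : Good n w)
    (hxw : x ^ w = x⁻¹) : False := by
  have h1L := hB _ hL
  have hLw := hL.good h he hB hf hw
  have hcop := hw.coprime h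
  have h1 : x⁻¹ * 1 ∈ D := by
    apply hLw.mul_mem
    · rw [← hxw, pow_mem_pw hcop]; exact hx
    · exact hB _ hLw
  have h2 : x⁻¹ * x ∈ D := by
    rw [inv_mul_cancel]
    have := hL.mul_mem h1L h1L
    rwa [one_mul] at this
  have h3 := hL.mem_of_two h1L hx hx1.symm h1 h2
  rcases hL.1.sidon h hf hx h3 h1L h1L (by simp) with h4 | h4 <;> exact hx1 h4

/-- The relation `x x ^ w = x ^ f` with products `w`, `f` of primes dividing `n` is possible on a
normalised long line with trivial stabiliser only if `x ^ w = x`. -/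
theorem Norm.add_rel (h : IsDS D n (n + 1)) (he : Even n) (hB : Base D n) {L : Finset G}
    (hL : Norm D n L) (hf : Free L) {x : G} (hx : x ∈ L) {w f : ℕ} (hw : Good n w)
    (hfg : Good n f) (hrel : x * x ^ w = x ^ f) : x ^ w = x := by
  by_cases hx1 : x = 1
  · rw [hx1, one_pow]
  have h1L := hB _ hL
  have hLw := hL.good h he hB hf hw
  have hLf := hL.good h he hB hf hfg
  have hLff := hL.good h he hB hf (hfg.mul hfg)
  have hcw := hw.coprime h
  have hcf := hfg.coprime h
  have hcff := (hfg.mul hfg).coprime h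
  have h2g : Good n 2 := good_prime Nat.prime_two he.two_dvd
  have hc2 := h2g.coprime h
  have hxw : x ^ w ∈ LM.pw w L := (pow_mem_pw hcw).2 hx
  -- `x ^ w` lies on `L`
  have hb : x ^ w ∈ L := by
    apply hL.mem_of_two h1L hx (Ne.symm hx1)
    · exact hLw.mul_mem hxw (hB _ hLw)
    · rw [mul_comm, hrel]
      have := hLf.mul_mem ((pow_mem_pw hcf).2 hx) (hB _ hLf)
      rwa [mul_one] at this
  have hb1 : x ^ w ≠ 1 := by
    intro e; apply hx1
    apply pow_injective hcw
    simp only
    rw [e, one_pow]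
  have hEq : LM.pw w L = L :=
    hLw.1.eq_of_two h hL.1 (hB _ hLw) hxw h1L hb (Ne.symm hb1)
  have hc : (x ^ w) ^ w ∈ L := by
    have : (x ^ w) ^ w ∈ LM.pw w L := (pow_mem_pw hcw).2 hb
    rwa [hEq] at this
  -- the product of `x` and `x ^ (w ^ 2)`
  have hsqL := hL.square h he hB hf
  have hbb : (x ^ w) ^ 2 ∈ LM.pw 2 L := (pow_mem_pw hc2).2 hb
  have hbf : (x ^ w) ^ f = x ^ w * (x ^ w) ^ w := by
    rw [← pow_mul, mul_comm w f, pow_mul, ← hrel, mul_pow]
  have hff : x ^ (f * f) = x * (x ^ w) ^ w * (x ^ w) ^ 2 := by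
    rw [pow_mul, ← hrel, mul_pow, hbf, ← hrel, sq]
    simp only [mul_comm, mul_left_comm, mul_assoc]
  have hy : x * (x ^ w) ^ w ∈ LM.pw 2 L := by
    have hbb1 : (x ^ w) ^ 2 ≠ 1 := by
      intro e; apply hb1
      apply pow_injective hc2
      simp only
      rw [e, one_pow]
    apply hsqL.mem_of_two (hB _ hsqL) hbb (Ne.symm hbb1)
    · rw [mul_one]; exact hL.mul_mem hx hc
    · rw [← hff]
      have := hLff.mul_mem ((pow_mem_pw hcff).2 hx) (hB _ hLff)
      rwa [mul_one] at this
  unfold LM.pw at hy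
  rw [mem_image] at hy
  obtain ⟨l, hl, hl2⟩ := hy
  have hxl : x = l := by
    rcases hL.1.sidon h hf hx hc hl hl (by rw [← hl2, sq]) with h4 | h4 <;> exact h4
  have hcx : (x ^ w) ^ w = x := by
    rw [← hxl, sq] at hl2
    exact (mul_left_cancel hl2).symm
  rw [hcx, mul_comm, hrel] at hbf
  exact pow_injective hcf hbf

/-- A power of `a` which inverts `a` modulo the order of the group. -/
theorem exists_inv_good (h : IsDS D n (n + 1)) {a : ℕ} (ha : Good n a) :
    ∃ e, Good n e ∧ ∀ x : G, (x ^ a) ^ e = x := by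
  refine ⟨a ^ (Nat.totient (Fintype.card G) - 1), ha.pow _, fun x => ?_⟩
  have hpos : 0 < Nat.totient (Fintype.card G) := Nat.totient_pos.2 Fintype.card_pos
  rw [← pow_mul, ← pow_succ', Nat.sub_add_cancel hpos, ← pow_mod_card,
    Nat.ModEq.pow_totient (ha.coprime h).symm, pow_mod_card, pow_one]

/-- Relations between powers with products of primes dividing `n` as exponents. -/
theorem Norm.relation (h : IsDS D n (n + 1)) (he : Even n) (hB : Base D n) {L : Finset G}
    (hL : Norm D n L) (hf : Free L) {x : G} (hx : x ∈ L) {a b c : ℕ} (ha : Good n a)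
    (hb : Good n b) (hc : Good n c) (hrel : x ^ a * x ^ b = x ^ c) : x ^ a = x ^ b := by
  obtain ⟨e, hge, hxe⟩ := exists_inv_good h ha
  have h1 := (hL.good h he hB hf ha).add_rel h he hB (hf.pw (ha.coprime h))
    ((pow_mem_pw (ha.coprime h)).2 hx) (hge.mul hb) (hge.mul hc) (by
      rw [pow_mul, hxe, pow_mul, hxe]; exact hrel)
  rw [pow_mul, hxe] at h1
  exact h1.symm

/-- Additive triples of products of primes dividing `n`. -/
theorem Norm.triple (h : IsDS D n (n + 1)) (he : Even n) (hB : Base D n) {L : Finset G}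
    (hL : Norm D n L) (hf : Free L) {x : G} (hx : x ∈ L) {a b : ℕ} (ha : Good n a)
    (hb : Good n b) (hc : Good n (a + b)) : x ^ a = x ^ b :=
  hL.relation h he hB hf hx ha hb hc (pow_add _ _ _).symm

/-- No long line with trivial stabiliser if `n` is even and there is an additive triple such that
few elements satisfy `x ^ a = x ^ b`. -/
theorem no_free_of_triple (h : IsDS D n (n + 1)) (he : Even n) {L₀ : Finset G}
    (h₀ : Long D n L₀) {a b : ℕ} (ha : Good n a) (hb : Good n b)
    (hc : Good n (a + b)) (hcard : (univ.filter fun x : G => x ^ a = x ^ b).card ≤ n) :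
    ¬ Free L₀ := by
  intro hf₀
  obtain ⟨D', L, hD, hB, hL, hf, _⟩ := exists_base h he h₀ hf₀
  have hsub : L ⊆ univ.filter fun x : G => x ^ a = x ^ b := by
    intro x hx
    simp only [mem_filter, mem_univ, true_and]
    exact hL.triple hD he hB hf hx ha hb hc
  have := card_le_card hsub
  rw [hL.1.1] at this
  omega

theorem no_free_of_dvd (h : IsDS D n (n + 1)) (he : Even n) {L₀ : Finset G}
    (h₀ : Long D n L₀) (hd : 3 ∣ n ∨ 5 ∣ n ∨ 7 ∣ n) : ¬ Free L₀ := by
  intro hf₀
  obtain ⟨D', L, hD, hB, hL, hf, _⟩ := exists_base h he h₀ hf₀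
  have h2g : Good n 2 := good_prime Nat.prime_two he.two_dvd
  have hc2 := h2g.coprime h
  obtain ⟨x, hx, hx1⟩ : ∃ x ∈ L, x ≠ 1 := by
    have : 1 < L.card := by rw [hL.1.1]; have := h.hn; omega
    exact exists_mem_ne this 1
  have hinv : x ^ 3 = 1 → False := by
    intro h3
    apply hL.no_inverse hD he hB hf hx hx1 h2g
    have : x ^ 2 * x = 1 := by rw [← pow_succ]; exact h3
    exact eq_inv_of_mul_eq_one_left this
  rcases hd with h3 | h5 | h7
  · have h3g : Good n 3 := good_prime Nat.prime_three h3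
    have := hL.triple hD he hB hf hx good_one h2g (by simpa using h3g)
    rw [pow_one, sq] at this
    apply hx1
    have h4 : x * 1 = x * x := by rw [mul_one]; exact this
    exact (mul_left_cancel h4).symm
  · have h5g : Good n 5 := good_prime Nat.prime_five h5
    have := hL.triple hD he hB hf hx good_one (h2g.pow 2) (by norm_num; exact h5g)
    norm_num at this
    apply hinv
    have h4 : x * 1 = x * x ^ 3 := by rw [mul_one, ← pow_succ']; exact this
    exact (mul_left_cancel h4).symm
  · have h7g : Good n 7 := good_prime (by norm_num) h7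
    have := hL.triple hD he hB hf hx good_one h7g (by norm_num; exact h2g.pow 3)
    rw [pow_one] at this
    apply hinv
    apply pow_injective hc2
    simp only
    rw [one_pow, ← pow_mul]
    have h4 : x * 1 = x * x ^ 6 := by rw [mul_one, ← pow_succ']; exact this
    exact (mul_left_cancel h4).symm

/-- Elements which can lie on a normalised long line with trivial stabiliser. -/
def Adm (n : ℕ) (x : G) : Prop :=
  (∀ w, Good n w → x ^ w ≠ x⁻¹) ∧
  (∀ a b c, Good n a → Good n b → Good n c → x ^ a * x ^ b = x ^ c → x ^ a = x ^ b) ∧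
  {y : G | ∃ w, Good n w ∧ y = x ^ w}.ncard ≤ n ^ 2 + n

theorem Norm.adm (h : IsDS D n (n + 1)) (he : Even n) (hB : Base D n) {L : Finset G}
    (hL : Norm D n L) (hf : Free L) {x : G} (hx : x ∈ L) (hx1 : x ≠ 1) : Adm n x := by
  refine ⟨fun w hw hxw => hL.no_inverse h he hB hf hx hx1 hw hxw,
    fun a b c ha hb hc hrel => hL.relation h he hB hf hx ha hb hc hrel, ?_⟩
  have h1L := hB _ hL
  have h1D : (1 : G) ∈ D := by simpa using hL.mul_mem h1L h1L
  have hsub : {y : G | ∃ w, Good n w ∧ y = x ^ w} ⊆ ((D.erase 1 : Finset G) : Set G) := by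
    rintro y ⟨w, hw, rfl⟩
    have hLw := hL.good h he hB hf hw
    have h2 := hLw.mul_mem ((pow_mem_pw (hw.coprime h)).2 hx) (hB _ hLw)
    rw [mul_one] at h2
    rw [mem_coe, mem_erase]
    refine ⟨fun e => hx1 ?_, h2⟩
    apply pow_injective (hw.coprime h)
    simp only
    rw [e, one_pow]
  have h3 := Set.ncard_le_ncard hsub (Set.toFinite _)
  rw [Set.ncard_coe_finset, card_erase_of_mem h1D, h.hk] at h3
  calc _ ≤ _ := h3
    _ = n ^ 2 + n := by
      have : n * (n + 1) = n ^ 2 + n := by ring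
      omega

/-- The shape of the long lines with trivial stabiliser. -/
theorem shape (h : IsDS D n (n + 1)) (he : Even n) {L₀ : Finset G}
    (h₀ : Long D n L₀) (hf₀ : Free L₀) : ∃ z ∈ L₀, ∀ x ∈ L₀, x ≠ z → Adm n (x * z⁻¹) := by
  obtain ⟨D', L, hD, hB, hL, hf, y, hy⟩ := exists_base h he h₀ hf₀
  refine ⟨y⁻¹, ?_, ?_⟩
  · have := hB _ hL
    rw [hy, mem_tr, mul_one] at this
    exact this
  · intro x hx hxy
    rw [inv_inv]
    apply hL.adm hD he hB hf
    · rw [hy, mul_comm, mul_mem_tr]; exact hx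
    · intro e; exact hxy (eq_inv_of_mul_eq_one_left e)

theorem no_free_of_adm (h : IsDS D n (n + 1)) (he : Even n) {L₀ : Finset G}
    (h₀ : Long D n L₀) (hc : {x : G | Adm n x}.ncard < n ∨
      Nat.card (Subgroup.closure {x : G | Adm n x}) ≤ n ^ 2 + n) : ¬ Free L₀ := by
  intro hf₀
  obtain ⟨D', L, hD, hB, hL, hf, _⟩ := exists_base h he h₀ hf₀
  have h1L := hB _ hL
  have hadm : ∀ x ∈ L, x ≠ 1 → Adm n x := fun x hx hx1 => hL.adm hD he hB hf hx hx1
  rcases hc with hc | hc
  · have hsub : ((L.erase 1 : Finset G) : Set G) ⊆ {x : G | Adm n x} := by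
      intro x hx
      rw [mem_coe, mem_erase] at hx
      exact hadm x hx.2 hx.1
    have h3 := Set.ncard_le_ncard hsub (Set.toFinite _)
    rw [Set.ncard_coe_finset, card_erase_of_mem h1L, hL.1.1] at h3
    omega
  · set K := Subgroup.closure {x : G | Adm n x} with hK
    have hLK : ∀ x ∈ L, x ∈ K := by
      intro x hx
      by_cases hx1 : x = 1
      · rw [hx1]; exact K.one_mem
      · exact Subgroup.subset_closure (hadm x hx hx1)
    classical
    have hcard : Nat.card K = (univ.filter fun x : G => x ∈ K).card := by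
      rw [Nat.card_eq_fintype_card, Fintype.card_subtype]
    have h4 : (L.offDiag).card ≤ ((univ.filter fun x : G => x ∈ K).erase 1).card := by
      apply card_le_card_of_injOn (fun p => p.1 * p.2⁻¹)
      · rintro ⟨a, b⟩ hab
        rw [mem_coe, mem_offDiag] at hab
        rw [mem_coe, mem_erase, mem_filter]
        refine ⟨fun e => hab.2.2 (mul_inv_eq_one.1 e), mem_univ _, ?_⟩
        exact K.mul_mem (hLK a hab.1) (K.inv_mem (hLK b hab.2.1))
      · rintro ⟨a, b⟩ hab ⟨c, d⟩ hcd heq
        rw [mem_coe, mem_offDiag] at hab hcd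
        simp only at heq hab hcd
        have e1 : a * d = c * b := by
          have := mul_inv_eq_mul_inv_iff_mul_eq_mul.1 heq
          exact this
        rcases hL.1.sidon hD hf hab.1 hcd.2.1 hcd.1 hab.2.1 e1 with h5 | h5
        · subst h5
          have : d = b := mul_left_cancel e1
          rw [this]
        · exact absurd h5 hab.2.2
    rw [offDiag_card, hL.1.1, card_erase_of_mem (by simp [K.one_mem]), ← hcard] at h4
    have h5 : (n + 1) * (n + 1) - (n + 1) = n ^ 2 + n := by
      have : (n + 1) * (n + 1) = n ^ 2 + n + (n + 1) := by ring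
      omega
    have hpos : 0 < Nat.card K := Nat.card_pos
    omega

theorem no_free_of_cyclic (h : IsDS D n (n + 1)) (he : Even n) [IsCyclic G] {L₀ : Finset G}
    (h₀ : Long D n L₀) {a b : ℕ} (hab : a < b) (hba : b ≤ a + n) (ha : Good n a) (hb : Good n b)
    (hc : Good n (a + b)) : ¬ Free L₀ := by
  apply no_free_of_triple h he h₀ ha hb hc
  have h1 := IsCyclic.card_pow_eq_one_le (α := G) (n := b - a) (by omega)
  refine le_trans ?_ (le_trans h1 (by omega))
  apply card_le_card
  intro x hx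
  simp only [mem_filter, mem_univ, true_and] at hx ⊢
  have : x ^ a * 1 = x ^ a * x ^ (b - a) := by
    rw [← pow_add, mul_one, Nat.add_sub_cancel' hab.le]; exact hx
  exact (mul_left_cancel this).symm

end Pool.Agent.T9h96.LM
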