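import Pool.Agent.T9h96.LM.General

set_option autoImplicit false

/-!
# The case of the parameters of `PG(3, n)`, `n` even

Normalised long lines: `L L ⊆ D` and `L` consists of all `y` with `y L ⊆ D`.
-/

namespace Pool.Agent.T9h96.LM

open Finset MonoidAlgebra

variable {G : Type*} [CommGroup G] [Fintype G] [DecidableEq G]
variable {D : Finset G} {n : ℕ}

/-- Two long lines in a common block meet. -/
theorem Long.meet (h : IsDS D n (n + 1)) {L L' : Finset G} (hL : Long D n L) (hL' : Long D n L')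
    {b : G} (hb : b ∈ S D L) (hb' : b ∈ S D L') : ∃ x ∈ L, x ∈ L' := by
  have h2 := h.hn
  have hc : 1 < (S D L').card := by rw [hL'.card_S h]; omega
  obtain ⟨b', hb1, hb2⟩ := exists_mem_ne hc b
  have hsub : L' ⊆ univ.filter fun x : G => b * x ∈ D ∧ b' * x ∈ D := by
    intro x hx
    simp only [mem_filter, mem_univ, true_and]
    exact ⟨mem_S.1 hb' x hx, mem_S.1 hb1 x hx⟩
  have heq := eq_of_subset_of_card_le hsub (by rw [count_two' h (Ne.symm hb2), hL'.1])
  have h1 : 1 ≤ A D b' L := by rcases hL.2 b' with h3 | h3 <;> omega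
  obtain ⟨l, hl, hbl⟩ := one_le_A h1
  refine ⟨l, hl, ?_⟩
  rw [heq]
  simp only [mem_filter, mem_univ, true_and]
  exact ⟨mem_S.1 hb l hl, hbl⟩

/-- The polar of a long line is a translate of it. -/
theorem Long.polar (h : IsDS D n (n + 1)) {L : Finset G} (hL : Long D n L) :
    ∃ c, S D L = LM.tr c L := by
  have h2 := h.hn
  obtain ⟨y0, hy0, y1, hy1, hne⟩ := one_lt_card.1
    (show 1 < (S D L).card by rw [hL.card_S h]; omega)
  obtain ⟨p, hp0, hp1⟩ := (hL.tr y0).meet h (hL.tr y1) (b := 1)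
    (mem_S_tr.2 (by simpa using hy0)) (mem_S_tr.2 (by simpa using hy1))
  rw [mem_tr] at hp0 hp1
  refine ⟨y0 * (y1⁻¹ * p)⁻¹, ?_⟩
  set c := y0 * (y1⁻¹ * p)⁻¹ with hc
  have hM := hL.tr c
  have hm0 : y0 ∈ LM.tr c L := by
    rw [mem_tr, hc]
    have : (y0 * (y1⁻¹ * p)⁻¹)⁻¹ * y0 = y1⁻¹ * p := by group
    rw [this]; exact hp1
  have hm1 : y1 ∈ LM.tr c L := by
    rw [mem_tr, hc]
    have : (y0 * (y1⁻¹ * p)⁻¹)⁻¹ * y1 = y0⁻¹ * p := by
      rw [mul_inv, inv_inv, mul_assoc, mul_comm (y1⁻¹ * p) y1, mul_inv_cancel_left]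
    rw [this]; exact hp0
  symm
  apply eq_of_subset_of_card_le
  · intro x hx
    rw [mem_S]
    intro l hl
    have : l ∈ S D (LM.tr c L) := by
      apply hM.mem_S_of_two hm0 hm1 hne
      · rw [mul_comm]; exact mem_S.1 hy0 l hl
      · rw [mul_comm]; exact mem_S.1 hy1 l hl
    rw [mul_comm]
    exact mem_S.1 this x hx
  · rw [hL.card_S h, card_tr, hL.1]

/-- Normalised long lines. -/
def Norm (D : Finset G) (n : ℕ) (L : Finset G) : Prop := Long D n L ∧ S D L = L

theorem Norm.mem_of_two {L : Finset G} (hL : Norm D n L) {g x y : G} (hx : x ∈ L) (hy : y ∈ L)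
    (hxy : x ≠ y) (h1 : g * x ∈ D) (h2 : g * y ∈ D) : g ∈ L := by
  rw [← hL.2]; exact hL.1.mem_S_of_two hx hy hxy h1 h2

theorem Norm.mul_mem {L : Finset G} (hL : Norm D n L) {x y : G} (hx : x ∈ L) (hy : y ∈ L) :
    x * y ∈ D := by
  rw [← hL.2] at hx; exact mem_S.1 hx y hy

theorem Norm.A_eq {L : Finset G} (hL : Norm D n L) (g : G) :
    A D g L = 1 + n * (if g ∈ L then 1 else 0) := by
  by_cases hg : g ∈ L
  · rw [if_pos hg]
    rw [← hL.2, hL.1.mem_S_iff] at hg
    omega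
  · rw [if_neg hg]
    rcases hL.1.2 g with h3 | h3
    · omega
    · exfalso; apply hg; rw [← hL.2, hL.1.mem_S_iff]; exact h3

theorem exists_sq (hodd : (Fintype.card G).Coprime 2) (c : G) : ∃ z : G, z ^ 2 = c := by
  have : (Nat.card G).Coprime 2 := by rwa [Nat.card_eq_fintype_card]
  exact ⟨(powCoprime this).symm c, (powCoprime this).apply_symm_apply c⟩

theorem Long.exists_norm (h : IsDS D n (n + 1)) (hodd : (Fintype.card G).Coprime 2)
    {L : Finset G} (hL : Long D n L) : ∃ z, Norm D n (LM.tr z L) := by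
  obtain ⟨c, hc⟩ := hL.polar h
  obtain ⟨z, hz⟩ := exists_sq hodd c
  refine ⟨z, hL.tr z, ?_⟩
  ext y
  rw [mem_S_tr, hc, mem_tr, mem_tr, ← hz]
  have : (z ^ 2)⁻¹ * (y * z) = z⁻¹ * y := by
    rw [sq, mul_inv, mul_comm y z, mul_assoc, inv_mul_cancel_left]
  rw [this]

theorem sum_A_comm (D X Y : Finset G) (g : G) :
    ∑ y ∈ Y, A D (g * y) X = ∑ x ∈ X, A D (g * x) Y := by
  have e : ∀ (X : Finset G) (g : G), A D g X = ∑ x ∈ X, if g * x ∈ D then 1 else 0 := by
    intro X g; unfold A; rw [card_filter]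
  simp_rw [e]
  rw [sum_comm]
  apply sum_congr rfl; intro x _
  apply sum_congr rfl; intro y _
  rw [mul_right_comm]

theorem A_inv (X Y : Finset G) (g : G) : A X g⁻¹ Y = A Y g X := by
  unfold A
  apply card_nbij' (fun y => g⁻¹ * y) (fun x => g * x)
  · intro y hy
    simp only [coe_filter, Set.mem_ofPred_eq] at hy ⊢
    exact ⟨hy.2, by simpa using hy.1⟩
  · intro y hy
    simp only [coe_filter, Set.mem_ofPred_eq] at hy ⊢
    exact ⟨hy.2, by simpa using hy.1⟩
  · intro y _; simp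
  · intro y _; simp

/-- Two normalised long lines meet. -/
theorem Norm.meet (h : IsDS D n (n + 1)) (he : Even n) (hodd : (Fintype.card G).Coprime 2)
    {L L' : Finset G} (hL : Norm D n L) (hL' : Norm D n L') : ∃ x ∈ L, x ∈ L' := by
  have h2 := h.hn
  have key : ∀ g, A L g L' = A L' g L := by
    intro g
    have h1 := sum_A_comm D L L' g
    simp_rw [hL.A_eq, hL'.A_eq] at h1
    rw [sum_add_distrib, sum_add_distrib, ← mul_sum, ← mul_sum, sum_const, sum_const, hL.1.1,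
      hL'.1.1] at h1
    have h3 : n * (∑ y ∈ L', if g * y ∈ L then 1 else 0) =
        n * (∑ x ∈ L, if g * x ∈ L' then 1 else 0) := by omega
    have h4 := Nat.eq_of_mul_eq_mul_left (by omega) h3
    unfold A
    rw [card_filter, card_filter]
    exact h4
  have hinv : ∀ g, A L g⁻¹ L' = A L g L' := by
    intro g; rw [A_inv, key]
  have hsum := sum_A L L'
  rw [hL.1.1, hL'.1.1] at hsum
  have h5 : (∑ g ∈ (univ : Finset G).erase 1, (A L g L' : ZMod 2)) = 0 := by
    apply sum_involution (fun g _ => g⁻¹)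
    · intro g _
      rw [hinv]
      exact CharTwo.add_self_eq_zero _
    · intro g hg _ hgg
      have h6 : g ^ 2 = 1 ^ 2 := by
        rw [one_pow, sq]; nth_rewrite 1 [← hgg]; exact inv_mul_cancel g
      exact (ne_of_mem_erase hg) (pow_injective hodd h6)
    · intro g _; simp
    · intro g hg
      rw [mem_erase] at hg ⊢
      exact ⟨inv_ne_one.2 hg.1, mem_univ _⟩
  have h6 : ((∑ g : G, A L g L' : ℕ) : ZMod 2) = (A L 1 L' : ZMod 2) := by
    rw [Nat.cast_sum, ← add_sum_erase _ _ (mem_univ (1 : G)), h5, add_zero]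
  rw [hsum] at h6
  have hn0 : ((n : ℕ) : ZMod 2) = 0 := (ZMod.natCast_eq_zero_iff _ _).2 he.two_dvd
  have h7 : A L 1 L' ≠ 0 := by
    intro h0
    rw [h0] at h6
    push_cast at h6
    rw [hn0] at h6
    simp at h6
  obtain ⟨x, hx, hx'⟩ := one_le_A (D := L) (g := 1) (L := L') (by omega)
  exact ⟨x, by simpa using hx', hx⟩

/-- All normalised long lines pass through one point. -/
theorem Norm.concurrent (h : IsDS D n (n + 1)) (he : Even n) (hodd : (Fintype.card G).Coprime 2)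
    {L₁ L₂ L₃ : Finset G} (h₁ : Norm D n L₁) (h₂ : Norm D n L₂) (h₃ : Norm D n L₃)
    (hne : L₁ ≠ L₂) {a : G} (ha1 : a ∈ L₁) (ha2 : a ∈ L₂) : a ∈ L₃ := by
  by_contra ha3
  obtain ⟨b, hb1, hb3⟩ := h₁.meet h he hodd h₃
  obtain ⟨c, hc2, hc3⟩ := h₂.meet h he hodd h₃
  have hbc : b ≠ c := by
    rintro rfl
    exact hne (h₁.1.eq_of_two h h₂.1 ha1 hb1 ha2 hc2 (by rintro rfl; exact ha3 hb3))
  exact ha3 (h₃.mem_of_two hb3 hc3 hbc (h₁.mul_mem ha1 hb1) (h₂.mul_mem ha2 hc2))

theorem sq_mem_S {L : Finset G} (hL : Norm D n L) : (1 : G) ∈ S D (pw 2 L) := by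
  rw [mem_S]
  intro x hx
  unfold pw at hx
  rw [mem_image] at hx
  obtain ⟨l, hl, rfl⟩ := hx
  rw [one_mul, sq]
  exact hL.mul_mem hl hl

/-- The squares of a long line with trivial stabiliser are not a translate of it. -/
theorem Norm.sq_ne (h : IsDS D n (n + 1)) {L : Finset G} (hL : Norm D n L) (hf : Free L) (z : G) :
    LM.tr z (LM.pw 2 L) ≠ L := by
  intro hz
  have h1 := sq_mem_S hL
  have e : LM.pw 2 L = LM.tr z⁻¹ L := by
    conv_rhs => rw [← hz]
    rw [tr_tr, inv_mul_cancel, tr_one]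
  rw [e, mem_S_tr, one_mul, hL.2] at h1
  have hall : ∀ l ∈ L, l = z⁻¹ := by
    intro l hl
    have h2 : z * l ^ 2 ∈ L := by
      have : z * l ^ 2 ∈ LM.tr z (LM.pw 2 L) := by
        rw [mul_mem_tr]; exact mem_image.2 ⟨l, hl, rfl⟩
      rwa [hz] at this
    have h3 : l * l = (z * l ^ 2) * z⁻¹ := by
      rw [mul_comm z, mul_inv_cancel_right, sq]
    rcases hL.1.sidon h hf hl hl h2 h1 h3 with h4 | h4
    · have h5 : z * l = 1 := by
        have : l * 1 = l * (z * l) := by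
          rw [mul_one]
          conv_lhs => rw [h4]
          rw [sq]
          exact (mul_left_comm _ _ _)
        exact (mul_left_cancel this).symm
      exact eq_inv_of_mul_eq_one_right h5
    · exact h4
  obtain ⟨x, hx, y, hy, hxy⟩ := hL.1.exists_two h
  exact hxy (by rw [hall x hx, hall y hy])

/-! ### Translation of the difference set -/

theorem A_tr_left (D : Finset G) (b g : G) (L : Finset G) : A (tr b D) g L = A D (b⁻¹ * g) L := by
  unfold A
  congr 1
  ext x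
  rw [mem_filter, mem_filter, mem_tr, mul_assoc]

theorem mem_S_tr_left {D L : Finset G} {b y : G} : y ∈ S (tr b D) L ↔ b⁻¹ * y ∈ S D L := by
  simp only [mem_S, mem_tr, mul_assoc]

theorem IsDS.tr {lam : ℕ} (h : IsDS D n lam) (b : G) : IsDS (tr b D) n lam := by
  refine ⟨h.hn, h.hlam, by rw [card_tr, h.hk], h.hv, fun g hg => ?_⟩
  rw [← h.hl g hg]
  apply card_nbij' (fun x => b⁻¹ * x) (fun x => b * x)
  · intro x hx
    simp only [coe_filter, Set.mem_ofPred_eq, mem_tr] at hx ⊢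
    exact ⟨hx.1, by rw [mul_left_comm]; exact hx.2⟩
  · intro x hx
    simp only [coe_filter, Set.mem_ofPred_eq, mul_mem_tr] at hx ⊢
    refine ⟨hx.1, ?_⟩
    rw [mul_left_comm, mul_mem_tr]; exact hx.2
  · intro x _; simp
  · intro x _; simp

theorem long_tr_left {L : Finset G} (b : G) : Long (tr b D) n L ↔ Long D n L := by
  unfold Long
  simp_rw [A_tr_left]
  constructor
  · rintro ⟨h1, h2⟩
    refine ⟨h1, fun g => ?_⟩
    have := h2 (b * g)
    rwa [inv_mul_cancel_left] at this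
  · rintro ⟨h1, h2⟩
    exact ⟨h1, fun g => h2 _⟩

theorem norm_tr_iff {L : Finset G} (a : G) :
    Norm (tr (a ^ 2)⁻¹ D) n L ↔ Norm D n (tr a L) := by
  unfold Norm
  rw [long_tr_left]
  constructor
  · rintro ⟨h1, h2⟩
    refine ⟨h1.tr a, ?_⟩
    ext y
    have h4 : a⁻¹ * y ∈ L ↔ a⁻¹ * y ∈ S (tr (a ^ 2)⁻¹ D) L := by rw [h2]
    have : (a ^ 2)⁻¹⁻¹ * (a⁻¹ * y) = y * a := by
      rw [inv_inv, sq, mul_assoc, mul_inv_cancel_left, mul_comm]
    rw [mem_S_tr, mem_tr, h4, mem_S_tr_left, this]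
  · rintro ⟨h1, h2⟩
    have h3 : Long D n L := by
      have := h1.tr a⁻¹
      rwa [tr_tr, inv_mul_cancel, tr_one] at this
    refine ⟨h3, ?_⟩
    ext y
    rw [mem_S_tr_left]
    have e1 : (a ^ 2)⁻¹⁻¹ * y ∈ S D L ↔ a * y ∈ S D (LM.tr a L) := by
      rw [mem_S_tr]
      have : (a ^ 2)⁻¹⁻¹ * y = a * y * a := by
        rw [inv_inv, sq, mul_assoc, mul_comm a (a * y)]
      rw [this]
    rw [e1, h2, mul_mem_tr]

/-- The base situation: every normalised line contains `1`. -/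
def Base (D : Finset G) (n : ℕ) : Prop := ∀ L, Norm D n L → (1 : G) ∈ L

theorem exists_base (h : IsDS D n (n + 1)) (he : Even n) {L₀ : Finset G} (h₀ : Long D n L₀)
    (hf₀ : Free L₀) :
    ∃ (D' L : Finset G), IsDS D' n (n + 1) ∧ Base D' n ∧ Norm D' n L ∧ Free L ∧
      ∃ y, L = tr y L₀ := by
  have hodd : (Fintype.card G).Coprime 2 := h.coprime he.two_dvd
  obtain ⟨z, hz⟩ := h₀.exists_norm h hodd
  set L := LM.tr z L₀ with hLdef
  have hf : Free L := hf₀.tr z
  have hsq : Long D n (LM.pw 2 L) := hz.1.pw_prime h Nat.prime_two he.two_dvd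
  obtain ⟨w, hw⟩ := hsq.exists_norm h hodd
  have hne : L ≠ LM.tr w (LM.pw 2 L) := (hz.sq_ne h hf w).symm
  obtain ⟨a, ha, ha'⟩ := hz.meet h he hodd hw
  refine ⟨LM.tr (a ^ 2)⁻¹ D, LM.tr a⁻¹ L, h.tr _, ?_, ?_, hf.tr _, a⁻¹ * z, by
    rw [hLdef, tr_tr]⟩
  · intro M hM
    rw [norm_tr_iff] at hM
    have := hz.concurrent h he hodd hw hM hne ha ha'
    rw [mem_tr, inv_mul_cancel] at this
    exact this
  · rw [norm_tr_iff, tr_tr, mul_inv_cancel, tr_one]
    exact hz

theorem Norm.square (h : IsDS D n (n + 1)) (he : Even n) (hB : Base D n) {L : Finset G}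
    (hL : Norm D n L) (hf : Free L) : Norm D n (LM.pw 2 L) := by
  have hodd : (Fintype.card G).Coprime 2 := h.coprime he.two_dvd
  have hsq : Long D n (LM.pw 2 L) := hL.1.pw_prime h Nat.prime_two he.two_dvd
  obtain ⟨z, hz⟩ := hsq.exists_norm h hodd
  have h1 := hB _ hz
  rw [mem_tr, mul_one] at h1
  have h2 := sq_mem_S hL
  have e : LM.pw 2 L = LM.tr z⁻¹ (LM.tr z (LM.pw 2 L)) := by
    rw [tr_tr, inv_mul_cancel, tr_one]
  rw [e, mem_S_tr, one_mul, hz.2, mem_tr] at h2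
  unfold LM.pw at h1 h2
  rw [mem_image] at h1 h2
  obtain ⟨l, hl, hl2⟩ := h1
  obtain ⟨m, hm, hm2⟩ := h2
  have h3 : m = l * l := by
    apply pow_injective hodd
    simp only
    rw [hm2, ← hl2, mul_pow]
  have h1L := hB _ hL
  have h4 : l = 1 := by
    rcases hL.1.sidon h hf hl hl hm h1L (by rw [h3, mul_one]) with h5 | h5
    · rw [h3] at h5
      have h6 : l * l = l * 1 := by rw [mul_one]; exact h5.symm
      exact mul_left_cancel h6
    · exact h5
  rw [h4, one_pow] at hl2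
  have h5 : z = 1 := by rw [← inv_inj, ← hl2, inv_one]
  rw [h5, tr_one] at hz
  exact hz

end Pool.Agent.T9h96.LM
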