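import Pool.Agent.T9h96.LM.Power

set_option autoImplicit false

/-!
# Long lines and inverting power maps

If a product `t` of primes dividing `n` inverts a subgroup of index at most `n / 2`, then every long
line through `1` is a subgroup.
-/

namespace Pool.Agent.T9h96.LM

open Finset

variable {G : Type*} [CommGroup G] [Fintype G] [DecidableEq G]
variable {D : Finset G} {n lam : ℕ}

/-- Trivial stabiliser. -/
def Free (L : Finset G) : Prop := ∀ a, tr a L = L → a = 1

theorem Free.tr {L : Finset G} (hL : Free L) (a : G) : Free (tr a L) := by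
  intro b hb
  apply hL
  have h1 : LM.tr a⁻¹ (LM.tr b (LM.tr a L)) = LM.tr a⁻¹ (LM.tr a L) := by rw [hb]
  rw [tr_tr, tr_tr, tr_tr] at h1
  have e1 : a⁻¹ * b * a = b := by rw [mul_comm a⁻¹ b, inv_mul_cancel_right]
  rw [e1, inv_mul_cancel, tr_one] at h1
  exact h1

theorem Free.pw {L : Finset G} (hL : Free L) {t : ℕ} (ht : (Fintype.card G).Coprime t) :
    Free (pw t L) := by
  intro b hb
  obtain ⟨a, rfl⟩ : ∃ a, a ^ t = b := by
    have : (Nat.card G).Coprime t := by rwa [Nat.card_eq_fintype_card]
    exact ⟨(powCoprime this).symm b, (powCoprime this).apply_symm_apply b⟩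
  rw [← pw_tr] at hb
  have h2 : LM.tr a L = L := by
    ext x
    rw [← pow_mem_pw ht, hb, pow_mem_pw ht]
  rw [hL a h2, one_pow]

/-- A long line through `1` which is fixed by some translation is a subgroup. -/
theorem Long.subgroup_of_not_free (h : IsDS D n lam) {L : Finset G} (hL : Long D n L)
    (h1 : (1 : G) ∈ L) (hf : ¬ Free L) : ∃ H : Subgroup G, (H : Set G) = L := by
  unfold Free at hf
  push Not at hf
  obtain ⟨a, ha, ha1⟩ := hf
  have haL : ∀ l ∈ L, a * l ∈ L := by
    intro l hl
    have : a * l ∈ LM.tr a L := mul_mem_tr.2 hl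
    rwa [ha] at this
  have key : ∀ l ∈ L, LM.tr l⁻¹ L = L := by
    intro l hl
    apply (hL.tr l⁻¹).eq_of_two h hL (x := 1) (y := a) _ _ h1 _ (Ne.symm ha1)
    · rw [mem_tr]; simpa using hl
    · rw [mem_tr, inv_inv, mul_comm]; exact haL l hl
    · simpa using haL 1 h1
  have hc : ∀ x ∈ L, ∀ y ∈ L, x⁻¹ * y ∈ L := by
    intro x hx y hy
    have : x⁻¹ * y ∈ LM.tr x⁻¹ L := mul_mem_tr.2 hy
    rwa [key x hx] at this
  have hinv : ∀ x ∈ L, x⁻¹ ∈ L := by
    intro x hx; simpa using hc x hx 1 h1
  refine ⟨{ carrier := L, mul_mem' := ?_, one_mem' := h1, inv_mem' := ?_ }, rfl⟩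
  · intro x y hx hy
    have := hc x⁻¹ (hinv x hx) y hy
    simpa using this
  · intro x hx
    exact hinv x hx

/-- Long lines with trivial stabiliser are Sidon sets. -/
theorem Long.sidon (h : IsDS D n lam) {L : Finset G} (hL : Long D n L) (hf : Free L)
    {a b c d : G} (ha : a ∈ L) (hb : b ∈ L) (hc : c ∈ L) (hd : d ∈ L) (he : a * b = c * d) :
    a = c ∨ a = d := by
  by_contra hcon
  push Not at hcon
  have e1 : a * c⁻¹ = d * b⁻¹ := by
    rw [mul_inv_eq_iff_eq_mul, mul_assoc, mul_comm b⁻¹ c, ← mul_assoc, mul_comm d c, ← he]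
    simp
  have h2 : LM.tr (a * c⁻¹) L = L := by
    apply (hL.tr _).eq_of_two h hL (x := a) (y := d) _ _ ha hd hcon.2
    · rw [mem_tr]; simpa using hc
    · rw [mem_tr, e1]; simpa using hb
  have h3 := hf _ h2
  exact hcon.1 (mul_inv_eq_one.1 h3)

/-- At most two points of a long line with trivial stabiliser lie in a coset of a subgroup which is
inverted by a product of primes dividing `n`. -/
theorem Long.fibre (h : IsDS D n lam) {L : Finset G} (hL : Long D n L) (hf : Free L)
    {t : ℕ} (ht : Good n t) {K : Subgroup G} (hK : ∀ x ∈ K, x ^ t = x⁻¹) {x y z : G}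
    (hx : x ∈ L) (hy : y ∈ L) (hz : z ∈ L) (hxy : x ≠ y) (hxz : x ≠ z) (hyz : y ≠ z)
    (h1 : y * x⁻¹ ∈ K) (h2 : z * x⁻¹ ∈ K) : False := by
  have hM := hL.pw h ht
  have key : ∀ w ∈ L, x ≠ w → w * x⁻¹ ∈ K → LM.tr (w * (x ^ t)⁻¹) (LM.pw t L) = L := by
    intro w hw hxw hwK
    have hcop := ht.coprime h
    apply (hM.tr _).eq_of_two h hL (x := w) (y := x) _ _ hw hx hxw.symm
    · rw [mem_tr]
      have : (w * (x ^ t)⁻¹)⁻¹ * w = x ^ t := by group
      rw [this, pow_mem_pw hcop]; exact hx
    · rw [mem_tr]
      have e := hK _ hwK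
      have e2 : (w * (x ^ t)⁻¹)⁻¹ * x = w ^ t := by
        rw [mul_pow, inv_pow] at e
        have e3 : w ^ t = (w * x⁻¹)⁻¹ * x ^ t := by
          rw [← e]; simp
        rw [e3]
        rw [mul_inv, mul_inv, inv_inv, inv_inv]
        rw [mul_assoc, mul_assoc, mul_comm x (x ^ t)]
      rw [e2, pow_mem_pw hcop]; exact hw
  have ky := key y hy hxy h1
  have kz := key z hz hxz h2
  have h3 : LM.tr (z * y⁻¹) L = L := by
    conv_lhs => rw [← ky]
    rw [tr_tr]
    have : z * y⁻¹ * (y * (x ^ t)⁻¹) = z * (x ^ t)⁻¹ := by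
      rw [mul_assoc, inv_mul_cancel_left]
    rw [this]; exact kz
  have := hf _ h3
  exact hyz (mul_inv_eq_one.1 this).symm

theorem Long.not_free (h : IsDS D n lam) {L : Finset G} (hL : Long D n L)
    {t : ℕ} (ht : Good n t) {K : Subgroup G} (hK : ∀ x ∈ K, x ^ t = x⁻¹)
    (hi : 2 * K.index ≤ n) : ¬ Free L := by
  intro hf
  classical
  have hcard : Fintype.card (G ⧸ K) = K.index := by
    rw [← Nat.card_eq_fintype_card]; rfl
  obtain ⟨q, _, hq⟩ := exists_lt_card_fiber_of_mul_lt_card_of_maps_to
    (s := L) (t := (univ : Finset (G ⧸ K))) (f := fun x : G => (x : G ⧸ K)) (n := 2)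
    (fun a _ => mem_univ _) (by rw [card_univ, hcard, hL.1]; omega)
  obtain ⟨x, hx, y, hy, z, hz, hxy, hxz, hyz⟩ := two_lt_card.1 hq
  rw [mem_filter] at hx hy hz
  have e : ∀ a b : G, (a : G ⧸ K) = q → (b : G ⧸ K) = q → b * a⁻¹ ∈ K := by
    intro a b ha hb
    have : (a : G ⧸ K) = b := by rw [ha, hb]
    rw [mul_comm]; exact QuotientGroup.eq.1 this
  exact hL.fibre h hf ht hK hx.1 hy.1 hz.1 hxy hxz hyz (e x y hx.2 hy.2) (e x z hx.2 hz.2)

/-- Two different subgroups of order `n + 1` which meet trivially. -/
theorem sq_dvd_of_disjoint {H H' : Subgroup G} (hd : Disjoint H H') :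
    Nat.card H * Nat.card H' ∣ Fintype.card G := by
  rw [← Nat.card_prod, ← Nat.card_eq_fintype_card]
  apply Subgroup.card_dvd_of_injective (H.subtype.coprod H'.subtype)
  rw [injective_iff_map_eq_one]
  rintro ⟨a, b⟩ hab
  simp only [MonoidHom.coprod_apply, Subgroup.subtype_apply] at hab
  have h1 : (a : G) = (b : G)⁻¹ := mul_eq_one_iff_eq_inv.1 hab
  have h2 : (a : G) ∈ H' := by rw [h1]; exact H'.inv_mem b.2
  have h3 : (a : G) = 1 := by
    have : (a : G) ∈ H ⊓ H' := ⟨a.2, h2⟩
    rw [hd.eq_bot] at this
    exact Subgroup.mem_bot.1 this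
  have h4 : (b : G) = 1 := by rw [h3, one_mul] at hab; exact hab
  ext <;> simp [h3, h4]

/-- The line joining `1` and `g`. -/
def line (D : Finset G) (g : G) : Finset G :=
  univ.filter fun z => ∀ h ∈ D, g * h ∈ D → z * h ∈ D

/-- The short elements. -/
def short (n : ℕ) (D : Finset G) : Finset G :=
  univ.filter fun g => g ≠ 1 ∧ (line D g).card ≠ n + 1

theorem one_mem_line (D : Finset G) (g : G) : (1 : G) ∈ line D g := by
  unfold line; rw [mem_filter]; exact ⟨mem_univ _, fun h hh _ => by simpa using hh⟩

theorem self_mem_line (D : Finset G) (g : G) : g ∈ line D g := by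
  unfold line; rw [mem_filter]; exact ⟨mem_univ _, fun h _ hh => hh⟩

theorem long_line' (h : IsDS D n lam) {g : G} (hg : g ≠ 1) (hc : (line D g).card = n + 1) :
    Long D n (line D g) := long_line h hg rfl hc

theorem card_of_subgroup {H : Subgroup G} {L : Finset G} (hH : (H : Set G) = L) :
    Nat.card H = L.card := by
  have h1 : Nat.card ((H : Set G) : Type _) = L.card := by
    rw [hH]; simp
  exact h1

/-- If all long lines through `1` are subgroups and `(n + 1) ^ 2` does not divide the order of the
group, then at most `n` elements besides `1` are not short. -/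
theorem card_le (h : IsDS D n lam)
    (hall : ∀ g : G, g ≠ 1 → (line D g).card = n + 1 → ∃ H : Subgroup G, (H : Set G) = line D g)
    (hdiv : ¬ (n + 1) * (n + 1) ∣ Fintype.card G) :
    Fintype.card G ≤ (short n D).card + (n + 1) := by
  by_cases hex : ∃ g : G, g ≠ 1 ∧ (line D g).card = n + 1
  · obtain ⟨g, hg, hc⟩ := hex
    have key : (univ : Finset G) ⊆ short n D ∪ line D g := by
      intro x _
      rw [mem_union]
      by_cases hx : x ∈ short n D
      · exact Or.inl hx
      · right
        by_cases hx1 : x = 1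
        · rw [hx1]; exact one_mem_line D g
        · have hcx : (line D x).card = n + 1 := by
            by_contra hcx
            exact hx (by unfold short; rw [mem_filter]; exact ⟨mem_univ _, hx1, hcx⟩)
          obtain ⟨H, hH⟩ := hall g hg hc
          obtain ⟨H', hH'⟩ := hall x hx1 hcx
          by_contra hxg
          apply hdiv
          have hne : line D g ≠ line D x := by
            intro e; rw [e] at hxg; exact hxg (self_mem_line D x)
          have hdis : Disjoint H H' := by
            rw [Subgroup.disjoint_def]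
            intro z hz hz'
            by_contra hz1
            apply hne
            apply (long_line' h hg hc).eq_of_two h (long_line' h hx1 hcx) (x := 1) (y := z)
              (one_mem_line D g) _ (one_mem_line D x) _ (Ne.symm hz1)
            · have : z ∈ (H : Set G) := hz
              rw [hH] at this; exact_mod_cast this
            · have : z ∈ (H' : Set G) := hz'
              rw [hH'] at this; exact_mod_cast this
          have := sq_dvd_of_disjoint hdis
          rwa [card_of_subgroup hH, card_of_subgroup hH', hc, hcx] at this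
    have := card_le_card key
    rw [card_univ] at this
    have h2 := card_union_le (short n D) (line D g)
    rw [hc] at h2
    omega
  · push Not at hex
    have key : (univ : Finset G) ⊆ insert 1 (short n D) := by
      intro x _
      rw [mem_insert]
      by_cases hx1 : x = 1
      · exact Or.inl hx1
      · right; unfold short; rw [mem_filter]; exact ⟨mem_univ _, hx1, hex x hx1⟩
    have := card_le_card key
    rw [card_univ] at this
    have h2 := card_insert_le 1 (short n D)
    omega

end Pool.Agent.T9h96.LM
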