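import Pool.Agent.T9h96.LM.Basic

set_option autoImplicit false

/-!
# Power maps and long lines

Every prime divisor `p` of `n` maps long lines to long lines.
-/

namespace Pool.Agent.T9h96.LM

open Finset MonoidAlgebra

variable {G : Type*} [CommGroup G] [Fintype G] [DecidableEq G]
variable {D : Finset G} {n lam : ℕ}

/-- `∑ x ∈ X, x` in the group ring. -/
noncomputable def dl (R : Type*) [CommRing R] (X : Finset G) : MonoidAlgebra R G :=
  ∑ x ∈ X, single x 1

/-- `∑ x ∈ X, x⁻¹` in the group ring. -/
noncomputable def dm (R : Type*) [CommRing R] (X : Finset G) : MonoidAlgebra R G :=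
  ∑ x ∈ X, single x⁻¹ 1

theorem coeff_dl (R : Type*) [CommRing R] (X : Finset G) (g : G) :
    (dl R X).coeff g = if g ∈ X then 1 else 0 := by
  unfold dl
  rw [coeff_sum, Finsupp.finsetSum_apply]
  simp_rw [coeff_single_apply]
  rw [sum_ite_eq']

theorem coef (R : Type*) [CommRing R] (X Y : Finset G) (g : G) :
    (dl R X * dm R Y).coeff g = (A X g Y : R) := by
  unfold dl dm
  rw [sum_mul_sum, sum_comm, coeff_sum, Finsupp.finsetSum_apply]
  have e : ∀ y ∈ Y, (∑ x ∈ X, (single x 1 : MonoidAlgebra R G) * single y⁻¹ 1).coeff g =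
      if g * y ∈ X then 1 else 0 := by
    intro y _
    rw [coeff_sum, Finsupp.finsetSum_apply]
    have : ∀ x ∈ X, ((single x 1 : MonoidAlgebra R G) * single y⁻¹ 1).coeff g =
        if x = g * y then 1 else 0 := by
      intro x _
      rw [single_mul_single, coeff_single_apply, mul_one]
      by_cases h : x = g * y
      · rw [if_pos h, if_pos (by rw [h]; simp)]
      · rw [if_neg h, if_neg (by
          intro h2; apply h; rw [← h2]; simp)]
    rw [sum_congr rfl this, sum_ite_eq']
  rw [sum_congr rfl e]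
  unfold A
  rw [card_filter]
  push_cast
  rfl

theorem single_mul_univ (R : Type*) [CommRing R] (a : G) :
    (single a 1 : MonoidAlgebra R G) * dl R univ = dl R univ := by
  unfold dl
  rw [mul_sum]
  simp_rw [single_mul_single, mul_one]
  exact Fintype.sum_equiv (Equiv.mulLeft a) _ _ (fun x => rfl)

theorem univ_mul_dm (R : Type*) [CommRing R] (X : Finset G) :
    dl R univ * dm R X = (X.card : MonoidAlgebra R G) * dl R univ := by
  unfold dm
  rw [mul_sum]
  have : ∀ x ∈ X, dl R univ * (single x⁻¹ 1 : MonoidAlgebra R G) = dl R univ := by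
    intro x _
    rw [mul_comm]; exact single_mul_univ R _
  rw [sum_congr rfl this, sum_const, nsmul_eq_mul]

theorem dm_pow (p : ℕ) [hp : Fact p.Prime] (R : Type*) [CommRing R] [CharP R p] (X : Finset G)
    (hinj : Set.InjOn (fun x : G => x ^ p) X) :
    (dm R X) ^ p = dm R (pw p X) := by
  have : CharP (MonoidAlgebra R G) p :=
    charP_of_injective_ringHom (f := singleOneRingHom) (R := R) (by
      intro a b hab
      exact single_right_injective hab) p
  unfold dm pw
  rw [sum_pow_char, sum_image hinj]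
  apply sum_congr rfl
  intro x _
  rw [single_pow, one_pow, inv_pow]

theorem pow_injective {t : ℕ} (ht : (Fintype.card G).Coprime t) :
    Function.Injective (fun x : G => x ^ t) := by
  have : (Nat.card G).Coprime t := by rwa [Nat.card_eq_fintype_card]
  exact (powCoprime this).injective

theorem IsDS.coprime (h : IsDS D n lam) {p : ℕ} (hp : p ∣ n) : (Fintype.card G).Coprime p := by
  obtain ⟨m, rfl⟩ := hp
  rw [h.hv]
  rw [Nat.coprime_comm]
  have : p * m * (p * m * lam + 1) + 1 = 1 + p * (m * (p * m * lam + 1)) := by ring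
  rw [this]
  simp

theorem card_pw {t : ℕ} (ht : (Fintype.card G).Coprime t) (L : Finset G) :
    (pw t L).card = L.card := card_image_of_injective _ (pow_injective ht)

theorem pow_mem_pw {t : ℕ} (ht : (Fintype.card G).Coprime t) {L : Finset G} {x : G} :
    x ^ t ∈ pw t L ↔ x ∈ L := by
  unfold pw
  rw [mem_image]
  constructor
  · rintro ⟨y, hy, hxy⟩
    have := pow_injective ht hxy
    rwa [← this]
  · intro hx; exact ⟨x, hx, rfl⟩

theorem pw_pw (s t : ℕ) (L : Finset G) : pw s (pw t L) = pw (t * s) L := by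
  unfold pw
  rw [image_image]
  congr 1
  funext x
  simp [pow_mul]

theorem pw_one (L : Finset G) : pw 1 L = L := by unfold pw; simp

theorem pw_tr (t : ℕ) (a : G) (L : Finset G) : pw t (tr a L) = tr (a ^ t) (pw t L) := by
  unfold pw tr
  rw [image_image, image_image]
  congr 1
  funext x
  simp [mul_pow]

/-- A prime divisor of `n` maps long lines to long lines. -/
theorem Long.pw_prime (h : IsDS D n lam) {L : Finset G} (hL : Long D n L) {p : ℕ}
    (hp : p.Prime) (hpn : p ∣ n) : Long D n (pw p L) := by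
  have : Fact p.Prime := ⟨hp⟩
  have hcop := h.coprime hpn
  apply long_of_blocking h (by rw [card_pw hcop, hL.1])
  have hn0 : ((n : ℕ) : ZMod p) = 0 := (ZMod.natCast_eq_zero_iff _ _).2 hpn
  have e1 : dl (ZMod p) D * dm (ZMod p) L = dl (ZMod p) univ := by
    ext g
    rw [coef, coeff_dl, if_pos (mem_univ _)]
    rcases hL.2 g with h1 | h1
    · rw [h1]; simp
    · rw [h1]; push_cast; rw [hn0]; simp
  have hnR : ((n : ℕ) : MonoidAlgebra (ZMod p) G) = 0 := by
    rw [natCast_def, hn0, single_zero]
  have e2 : ∀ j, dl (ZMod p) univ * (dm (ZMod p) L) ^ j = dl (ZMod p) (univ : Finset G) := by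
    intro j
    induction j with
    | zero => simp
    | succ j ih =>
      rw [pow_succ, ← mul_assoc, ih, univ_mul_dm, hL.1]
      push_cast
      rw [hnR]; simp
  have e3 : dl (ZMod p) D * dm (ZMod p) (pw p L) = dl (ZMod p) univ := by
    rw [← dm_pow p (ZMod p) L ((pow_injective hcop).injOn)]
    obtain ⟨q, rfl⟩ : ∃ q, p = q + 1 := ⟨p - 1, by have := hp.pos; omega⟩
    rw [pow_succ, mul_comm (dm _ _ ^ q), ← mul_assoc, e1, e2]
  intro g
  by_contra hc
  have h0 : A D g (pw p L) = 0 := by omega
  have h5 : (dl (ZMod p) D * dm (ZMod p) (LM.pw p L)).coeff g = (dl (ZMod p) univ).coeff g := by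
    rw [e3]
  rw [coef, coeff_dl, if_pos (mem_univ _), h0] at h5
  simp at h5

/-- All prime factors of `t` divide `n`. -/
def Good (n t : ℕ) : Prop := t ≠ 0 ∧ ∀ p, p.Prime → p ∣ t → p ∣ n

theorem Good.mul {s t : ℕ} (hs : Good n s) (ht : Good n t) : Good n (s * t) := by
  refine ⟨mul_ne_zero hs.1 ht.1, fun p hp hd => ?_⟩
  rcases (Nat.Prime.dvd_mul hp).1 hd with h | h
  · exact hs.2 p hp h
  · exact ht.2 p hp h

theorem Good.pow {t : ℕ} (ht : Good n t) (j : ℕ) : Good n (t ^ j) :=
  ⟨pow_ne_zero _ ht.1, fun p hp hd => ht.2 p hp (hp.dvd_of_dvd_pow hd)⟩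

theorem Good.of_mul_right {s t : ℕ} (h : Good n (s * t)) : Good n t :=
  ⟨right_ne_zero_of_mul h.1, fun p hp hd => h.2 p hp (hd.mul_left _)⟩

theorem good_one : Good n 1 := ⟨one_ne_zero, fun p hp hd => by
  have := Nat.dvd_one.1 hd; subst this; exact absurd hp Nat.not_prime_one⟩

theorem good_prime {p : ℕ} (hp : p.Prime) (h : p ∣ n) : Good n p :=
  ⟨hp.ne_zero, fun q hq hd => by rwa [(Nat.prime_dvd_prime_iff_eq hq hp).1 hd]⟩

theorem Good.coprime (h : IsDS D n lam) {t : ℕ} (ht : Good n t) : (Fintype.card G).Coprime t := by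
  rw [Nat.coprime_comm]
  apply Nat.Coprime.symm
  apply Nat.coprime_of_dvd
  intro p hp h1 h2
  have h3 := h.coprime (ht.2 p hp h2)
  exact hp.one_lt.ne' (Nat.eq_one_of_dvd_coprimes h3 h1 dvd_rfl)

/-- Induction over the primes. -/
theorem Good.induction {P : ℕ → Prop} (h1 : P 1)
    (hs : ∀ p t, p.Prime → p ∣ n → Good n t → P t → P (t * p)) :
    ∀ t, Good n t → P t := by
  intro t
  induction t using Nat.strong_induction_on with
  | _ t ih =>
    intro ht
    by_cases h : t = 1
    · rw [h]; exact h1
    · have hp := Nat.minFac_prime h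
      have hd := Nat.minFac_dvd t
      obtain ⟨s, hs'⟩ := hd
      have hs2 : t = s * t.minFac := by rw [mul_comm]; exact hs'
      have hpos : 0 < t := Nat.pos_of_ne_zero ht.1
      have hsg : Good n s := by
        have : Good n (t.minFac * s) := by rw [← hs']; exact ht
        exact this.of_mul_right
      have hlt : s < t := by
        have h2 := hp.two_le
        have h3 : 0 < s := Nat.pos_of_ne_zero hsg.1
        calc s < s * 2 := by omega
          _ ≤ s * t.minFac := Nat.mul_le_mul_left _ h2
          _ = t := hs2.symm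
      have := hs t.minFac s hp (ht.2 _ hp (Nat.minFac_dvd t)) hsg (ih s hlt hsg)
      rwa [← hs2] at this

theorem Long.pw (h : IsDS D n lam) {L : Finset G} (hL : Long D n L) {t : ℕ} (ht : Good n t) :
    Long D n (pw t L) := by
  revert t
  apply Good.induction
  · rw [pw_one]; exact hL
  · intro p t hp hpn _ ih
    rw [← pw_pw]
    exact ih.pw_prime h hp hpn

/-- If `x y = 0` in all group rings over prime fields and `s` is coprime to `|G|`, then one can
replace `y` by its image under the `s`-th power map: there are arbitrarily large primes congruent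
to `s` modulo `|G|`. -/
theorem exists_prime (s N : ℕ) (hs : (Fintype.card G).Coprime s) :
    ∃ q : ℕ, q.Prime ∧ N < q ∧ ∀ x : G, x ^ q = x ^ s := by
  have : NeZero (Fintype.card G) := ⟨Fintype.card_ne_zero⟩
  have hu : IsUnit ((s : ℕ) : ZMod (Fintype.card G)) := by
    rw [ZMod.isUnit_iff_coprime]; exact hs.symm
  obtain ⟨q, hq1, hq2, hq3⟩ := Nat.forall_exists_prime_gt_and_eq_mod hu N
  refine ⟨q, hq2, hq1, fun x => ?_⟩
  have : q ≡ s [MOD Fintype.card G] := (ZMod.natCast_eq_natCast_iff _ _ _).1 hq3
  rw [← pow_mod_card x q, ← pow_mod_card x s, this]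

end Pool.Agent.T9h96.LM
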